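import Mathlib
import Pool.Agent.H478Z.FM.Defs
import Pool.Agent.H478Z.FM.Global

/-!
A counterexample to the equivalence of conditions 1 and 2, with `F = ℚ`, `n = 1` and any odd
prime `l`.

The character is the inverse square root of the pro-`l` part of the cyclotomic character.  It is
unramified at every prime `p ≠ l` (so its Weil-Deligne representation at `p` is the unramified
character itself, with `N = 0`), and a geometric Frobenius element at `p` goes to an algebraic
integer all of whose complex conjugates have absolute value `p ^ (1 / 2)`: condition 2 holds with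
`w = 1`.  Its restriction to a decomposition group at `l` has no nonzero period in Fontaine's ring
`B_dR`, so it is not de Rham and condition 1 fails.
-/

set_option autoImplicit false

namespace Pool.Agent.Results.MP_395897_nt.HalfCyclotomic

open Pool.Agent.H478Z.FM

theorem result (l : ℕ) [Fact l.Prime] (hl : l ≠ 2) :
    ∃ ρ : Field.absoluteGaloisGroup ℚ →* ℤ_[l]ˣ, Continuous ρ ∧
      (∀ (p : ℕ) [Fact p.Prime], p ≠ l → ∀ (ι : AlgebraicClosure ℚ →+* PadicAlgCl p)
        (g : PadicAlgCl p ≃ₐ[ℚ_[p]] PadicAlgCl p),
          (IsInertia g → ρ (res ι g) = 1) ∧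
          (IsGeomFrob g → IsIntegral ℤ ((ρ (res ι g) : ℤ_[l]) : ℚ_[l]) ∧
            ∀ z : ℂ, Polynomial.aeval z (minpoly ℚ ((ρ (res ι g) : ℤ_[l]) : ℚ_[l])) = 0 →
              ‖z‖ = Real.sqrt p)) ∧
      ∀ ι : AlgebraicClosure ℚ →+* PadicAlgCl l, ¬ IsDeRhamChar fun g => ρ (res ι g) :=
  main hl

/-- Sanity check: the trivial character is de Rham, so `B_dR` is not the zero ring. -/
theorem sanity (l : ℕ) [Fact l.Prime] : IsDeRhamChar (p := l) fun _ => 1 := trivial_deRham

end Pool.Agent.Results.MP_395897_nt.HalfCyclotomic
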